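import Pool.Agent.MP_321233_an.Kernels

/-!
# [MP_321233_an] the accumulation sets of representing systems of Cauchy kernels

Stated beside the frozen statement S04269. The sequence need not avoid the circle by staying in a compact
part of the disc: every nonempty closed subset of the closed disc is the accumulation set of a sequence of
distinct points whose Cauchy kernels are a representing system of the Hardy space.
-/

set_option autoImplicit false

open Filter Topology

namespace Pool.Agent.Results.MP_321233_an.AccumulationSets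

lemma cluster_iff (Λ : ℕ → ℂ) (z : ℂ) :
    MapClusterPt z atTop Λ ↔ ∀ ε : ℝ, 0 < ε → ∀ N : ℕ, ∃ n, N ≤ n ∧ dist (Λ n) z < ε := by
  rw [mapClusterPt_iff_frequently]
  constructor
  · intro h ε hε N
    obtain ⟨n, hn, hn2⟩ := frequently_atTop.1 (h _ (Metric.ball_mem_nhds z hε)) N
    exact ⟨n, hn, hn2⟩
  · intro h s hs
    obtain ⟨ε, hε, hs2⟩ := Metric.mem_nhds_iff.1 hs
    rw [frequently_atTop]
    intro N
    obtain ⟨n, hn, hn2⟩ := h ε hε N
    exact ⟨n, hn, hs2 hn2⟩

lemma closure_range_eq (Λ : ℕ → ℂ) :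
    closure (Set.range Λ) = Set.range Λ ∪ {z | MapClusterPt z atTop Λ} := by
  apply Set.Subset.antisymm
  · intro z hz
    by_contra hcon
    rw [Set.mem_union, not_or] at hcon
    obtain ⟨hz1, hz2⟩ := hcon
    have hz3 : ¬ MapClusterPt z atTop Λ := hz2
    rw [cluster_iff] at hz3
    push Not at hz3
    obtain ⟨ε, hε, N, hN⟩ := hz3
    have hfin : (Λ '' Set.Iio N).Finite := (Set.finite_Iio N).image _
    have h1 : (Λ '' Set.Iio N)ᶜ ∈ 𝓝 z := by
      refine hfin.isClosed.isOpen_compl.mem_nhds ?_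
      rintro ⟨n, _, hn⟩
      exact hz1 ⟨n, hn⟩
    obtain ⟨w, ⟨hw1, hw2⟩, n, hn⟩ := mem_closure_iff_nhds.1 hz _
      (inter_mem h1 (Metric.ball_mem_nhds z hε))
    rcases lt_or_ge n N with h2 | h2
    · exact hw1 ⟨n, h2, hn⟩
    · rw [← hn, Metric.mem_ball] at hw2
      exact absurd hw2 (not_lt.2 (hN n h2))
  · rintro z (hz | hz)
    · exact subset_closure hz
    · have hz2 : MapClusterPt z atTop Λ := hz
      rw [cluster_iff] at hz2
      rw [Metric.mem_closure_iff]
      intro ε hε
      obtain ⟨n, _, hn⟩ := hz2 ε hε 0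
      exact ⟨Λ n, ⟨n, rfl⟩, by rwa [dist_comm]⟩

lemma exists_block {N : ℕ → ℕ} (hN : StrictMono N) (h0 : N 0 = 0) (n : ℕ) :
    ∃ j, N j ≤ n ∧ n < N (j + 1) := by
  induction n with
  | zero =>
    have h1 : N 0 < N (0 + 1) := hN (Nat.lt_succ_self 0)
    exact ⟨0, by omega, by omega⟩
  | succ n ih =>
    obtain ⟨j, h1, h2⟩ := ih
    by_cases h3 : n + 1 < N (j + 1)
    · exact ⟨j, by omega, h3⟩
    · refine ⟨j + 1, by omega, ?_⟩
      have h4 : N (j + 1) < N (j + 1 + 1) := hN (Nat.lt_succ_self _)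
      omega

/-- A set is the accumulation set of a sequence of distinct points of the unit disc whose Cauchy kernels
form a representing system of the Hardy space if and only if it is a nonempty closed subset of the closed
unit disc. -/
theorem result (F : Set ℂ) :
    (∃ Λ : ℕ → ℂ, Function.Injective Λ ∧ (∀ n, ‖Λ n‖ < 1) ∧
      {z | MapClusterPt z Filter.atTop Λ} = F ∧ closure (Set.range Λ) = Set.range Λ ∪ F ∧
      ∀ f : ℕ → ℂ, Summable (fun n => ‖f n‖ ^ 2) →
        ∃ c : ℕ → ℂ, Filter.Tendsto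
          (fun N : ℕ => ∑' n : ℕ,
            ‖f n - ∑ k ∈ Finset.range N, c k * (starRingEnd ℂ (Λ k)) ^ n‖ ^ 2)
          Filter.atTop (nhds 0)) ↔
    IsClosed F ∧ F.Nonempty ∧ F ⊆ Metric.closedBall 0 1 := by
  constructor
  · rintro ⟨Λ, _, h2, rfl, _⟩
    refine ⟨isClosed_setOfPred_clusterPt, ?_, ?_⟩
    · obtain ⟨z, _, hz⟩ := (isCompact_closedBall (0 : ℂ) 1).exists_mapClusterPt_of_frequently
        (l := atTop) (f := Λ) (Eventually.frequently (Eventually.of_forall fun n => by
          rw [mem_closedBall_zero_iff]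
          exact (h2 n).le))
      exact ⟨z, hz⟩
    · intro z hz
      have hz2 : z ∈ closure (Set.range Λ) := by
        rw [closure_range_eq]
        exact Or.inr hz
      refine closure_minimal ?_ Metric.isClosed_closedBall hz2
      rintro _ ⟨n, rfl⟩
      rw [mem_closedBall_zero_iff]
      exact (h2 n).le
  · rintro ⟨hF1, hF2, hF3⟩
    have : Nonempty F := hF2.to_subtype
    obtain ⟨q, hq⟩ := TopologicalSpace.exists_dense_seq F
    obtain ⟨N, Λ, hN, hN0, hinj, hblk, hrep⟩ := MP321233.blocks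
      (fun i => Metric.ball ((q (Nat.unpair i).1 : F) : ℂ) (1 / ((i : ℝ) + 1)) ∩ Metric.ball 0 1)
      (fun i => Metric.isOpen_ball.inter Metric.isOpen_ball)
      (fun i => by
        have h1 : ((q (Nat.unpair i).1 : F) : ℂ) ∈ closure (Metric.ball (0 : ℂ) 1) := by
          rw [closure_ball (0 : ℂ) one_ne_zero]
          exact hF3 (q (Nat.unpair i).1).2
        obtain ⟨w, hw1, hw2⟩ := Metric.mem_closure_iff.1 h1 (1 / ((i : ℝ) + 1)) (by positivity)
        exact ⟨w, by rw [Metric.mem_ball, dist_comm]; exact hw2, hw1⟩)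
      (fun i a ha => mem_ball_zero_iff.1 ha.2)
    have hnorm : ∀ n, ‖Λ n‖ < 1 := by
      intro n
      obtain ⟨j, h1, h2⟩ := exists_block hN hN0 n
      exact mem_ball_zero_iff.1 (hblk j n h1 h2).2
    have hclus : {z | MapClusterPt z Filter.atTop Λ} = F := by
      apply Set.Subset.antisymm
      · intro z hz
        have hz2 : MapClusterPt z atTop Λ := hz
        rw [cluster_iff] at hz2
        by_contra hzF
        obtain ⟨δ, hδ, hδ2⟩ := Metric.mem_nhds_iff.1 (hF1.isOpen_compl.mem_nhds hzF)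
        obtain ⟨J, hJ⟩ := exists_nat_one_div_lt (half_pos hδ)
        obtain ⟨n, hn, hn2⟩ := hz2 (δ / 2) (half_pos hδ) (N J)
        obtain ⟨j, h1, h2⟩ := exists_block hN hN0 n
        have hjJ : J ≤ j := by
          have h3 := hN.lt_iff_lt.1 (lt_of_le_of_lt hn h2)
          omega
        have h4 := (hblk j n h1 h2).1
        rw [Metric.mem_ball] at h4
        have h5 : 1 / ((j : ℝ) + 1) ≤ 1 / ((J : ℝ) + 1) := by
          apply one_div_le_one_div_of_le (by positivity)
          have : (J : ℝ) ≤ j := by exact_mod_cast hjJ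
          linarith
        have h6 : dist ((q (Nat.unpair j).1 : F) : ℂ) z < δ := by
          have h7 := dist_triangle ((q (Nat.unpair j).1 : F) : ℂ) (Λ n) z
          rw [dist_comm ((q (Nat.unpair j).1 : F) : ℂ) (Λ n)] at h7
          linarith
        exact hδ2 h6 (q (Nat.unpair j).1).2
      · intro z hz
        change MapClusterPt z atTop Λ
        rw [cluster_iff]
        intro ε hε N₀
        obtain ⟨_, ⟨l, rfl⟩, hl⟩ := Metric.mem_closure_iff.1 (hq ⟨z, hz⟩) (ε / 2) (half_pos hε)
        obtain ⟨J, hJ⟩ := exists_nat_one_div_lt (half_pos hε)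
        obtain ⟨i, hi⟩ : ∃ i, i = Nat.pair l (max J N₀) := ⟨_, rfl⟩
        have hi1 : max J N₀ ≤ i := by rw [hi]; exact Nat.right_le_pair _ _
        have hi2 : (Nat.unpair i).1 = l := by rw [hi, Nat.unpair_pair]
        have h4 := (hblk i (N i) le_rfl (hN (Nat.lt_succ_self i))).1
        rw [Metric.mem_ball, hi2] at h4
        have h5 : 1 / ((i : ℝ) + 1) ≤ 1 / ((J : ℝ) + 1) := by
          apply one_div_le_one_div_of_le (by positivity)
          have : (J : ℝ) ≤ i := by exact_mod_cast (le_max_left _ _).trans hi1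
          linarith
        refine ⟨N i, ((le_max_right _ _).trans hi1).trans (hN.le_apply), ?_⟩
        have h6 : dist z ((q l : F) : ℂ) < ε / 2 := hl
        have h7 := dist_triangle (Λ (N i)) ((q l : F) : ℂ) z
        rw [dist_comm ((q l : F) : ℂ) z] at h7
        linarith
    refine ⟨Λ, hinj, hnorm, hclus, by rw [← hclus]; exact closure_range_eq Λ, ?_⟩
    intro f hf
    have hfmem : Memℓp f 2 := by
      rw [memℓp_gen_iff (by norm_num)]
      norm_num
      exact hf
    obtain ⟨c, hc⟩ := hrep (⟨f, hfmem⟩ : lp (fun _ : ℕ => ℂ) 2)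
    refine ⟨c, ?_⟩
    have h1 : Filter.Tendsto (fun N : ℕ =>
        ‖(⟨f, hfmem⟩ : lp (fun _ : ℕ => ℂ) 2) - ∑ k ∈ Finset.range N, c k • MP321233.ker (Λ k)‖ ^ 2)
        Filter.atTop (nhds 0) := by
      have h2 := (tendsto_const_nhds (x := (⟨f, hfmem⟩ : lp (fun _ : ℕ => ℂ) 2))
        (f := Filter.atTop (α := ℕ))).sub hc
      rw [sub_self] at h2
      have h3 := h2.norm.pow 2
      simpa using h3
    refine h1.congr ?_
    intro N
    rw [MP321233.norm_sq_eq]
    apply tsum_congr
    intro n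
    congr 2
    have h5 : ((∑ k ∈ Finset.range N, c k • MP321233.ker (Λ k) : lp (fun _ : ℕ => ℂ) 2) : ℕ → ℂ) n =
        ∑ k ∈ Finset.range N, c k * (starRingEnd ℂ (Λ k)) ^ n := by
      rw [lp.coeFn_sum, Finset.sum_apply]
      apply Finset.sum_congr rfl
      intro k _
      rw [lp.coeFn_smul, Pi.smul_apply, MP321233.ker_apply (hnorm k)]
      simp
    rw [lp.coeFn_sub, Pi.sub_apply, h5]

end Pool.Agent.Results.MP_321233_an.AccumulationSets
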